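import Pool.Agent.Work.MP_037d19_vp.Main3

/-!
# Linear periods of `GL_m(D)`, `m` odd: finitely many characters

Let `F` be a finite extension of `ℚ_p` (`p = 2` is allowed), `A ≅ M_m(D)` a central simple
`F`-algebra of dimension `n ^ 2`, `n = 2k`, with `m` odd, `E` a quadratic extension of `F` embedded
in `A` by `ι`, and `H` the centralizer of `E` in `A^×`. For every irreducible admissible
representation `π` of `A^×` there are only finitely many smooth characters `χ` of `E^×` such that
`Hom_H(π, χ ∘ Nrd)` is not zero.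
-/

namespace Pool.Agent.Results.MP_037d19_al.FinitelyManyCharacters

open Pool.Agent.LPer Pool.Agent.VPer
open scoped Topology

theorem result (p : ℕ) [Fact p.Prime] (F E A D : Type) [NontriviallyNormedField F]
    [NormedAlgebra ℚ_[p] F] [FiniteDimensional ℚ_[p] F] [NormedField E] [NormedAlgebra F E]
    [NormedRing A] [NormedAlgebra F A] [Algebra.IsCentral F A] [IsSimpleRing A]
    [FiniteDimensional F A] [DivisionRing D] [Algebra F D] [FiniteDimensional F D]
    (k m : ℕ) (hE : Module.finrank F E = 2) (hA : Module.finrank F A = (2 * k) ^ 2)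
    (hm : Odd m) (e : A ≃ₐ[F] Matrix (Fin m) (Fin m) D) (ι : E →ₐ[F] A) (V : Type)
    [AddCommGroup V] [Module ℂ V] (π : Representation ℂ Aˣ V) (hπ : IrrAdm π) :
    {χ : E →*₀ ℂ | (∀ᶠ x in 𝓝 (1 : E), χ x = 1) ∧
      ∃ ℓ : Module.Dual ℂ V, IsPeriod ι χ π ℓ ∧ ℓ ≠ 0}.Finite :=
  (three p F E A D k m hE hA hm e ι).2.2 V π hπ

end Pool.Agent.Results.MP_037d19_al.FinitelyManyCharacters
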