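import Pool.Agent.Work.MP_037d19_lp.Main
import Pool.Agent.Work.MP_037d19_lp.Plain

/-!
# Linear periods for inner forms of `GL(n)`: uniqueness, duality and sign, for every character

Let `F` be a finite extension of `ℚ_p` (`p = 2` is allowed), `A` a central simple `F`-algebra of
dimension `n ^ 2`, `n = 2k` (so `A^× = GL_m(D)`), `E` a quadratic extension of `F` embedded in `A`
by `ι`, `H` the centralizer of `E` in `A^×`, `χ` an arbitrary smooth character of `E^×`, and `π` an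
irreducible admissible representation of `A^×` which is essentially unitary, or whose
contragredient is `(H, χ⁻¹ ∘ Nrd)`-distinguished, or which satisfies
`π ≅ π^∨ ⊗ (χ|_{F^×} ∘ Nrd)`. Then `dim Hom_H(π, χ ∘ Nrd) ≤ 1`, and if this space
is nonzero then `π ≅ π^∨ ⊗ (χ|_{F^×} ∘ Nrd)` through a form of sign `χ(-1)^{n/2}`.
-/

namespace Pool.Agent.Results.MP_037d19_al.LinearPeriods

open Pool.Agent.LPer
open scoped Topology

theorem result (p : ℕ) [Fact p.Prime] (F E A : Type) [NontriviallyNormedField F]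
    [NormedAlgebra ℚ_[p] F] [FiniteDimensional ℚ_[p] F] [NormedField E] [NormedAlgebra F E]
    [NormedRing A] [NormedAlgebra F A] [Algebra.IsCentral F A] [IsSimpleRing A]
    [FiniteDimensional F A] (k : ℕ) (hE : Module.finrank F E = 2)
    (hA : Module.finrank F A = (2 * k) ^ 2) (ι : E →ₐ[F] A) (χ : E →*₀ ℂ)
    (hχ : ∀ᶠ e in 𝓝 (1 : E), χ e = 1) (V : Type) [AddCommGroup V] [Module ℂ V]
    (π : Representation ℂ Aˣ V) (hπ : IrrAdm π)
    (h : EssUnit F π ∨ DualPeriod ι χ π ∨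
      ∃ c : V → V → ℂ, Bilin c ∧ c ≠ 0 ∧ Equivar F χ π c) :
    (∀ ℓ₁ ℓ₂ : Module.Dual ℂ V, IsPeriod ι χ π ℓ₁ → IsPeriod ι χ π ℓ₂ → ℓ₁ ≠ 0 →
      ∃ z : ℂ, ℓ₂ = z • ℓ₁) ∧
    ((∃ ℓ : Module.Dual ℂ V, IsPeriod ι χ π ℓ ∧ ℓ ≠ 0) →
      ∃ b : V → V → ℂ, Bilin b ∧ (∀ x, (∀ y, b x y = 0) → x = 0) ∧ Equivar F χ π b ∧
        ∀ x y : V, b y x = χ (-1) ^ k * b x y) :=
  plain p F E A k hE hA ι χ hχ V π hπ h

end Pool.Agent.Results.MP_037d19_al.LinearPeriods
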