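import Pool.Agent.Work.MP_037d19_vp.Main3

/-!
# Vanishing of linear periods of `GL_m(D)`, `m` odd, `p > n`: the sharp radius

Let `F` be a finite extension of `ℚ_p`, `A ≅ M_m(D)` a central simple `F`-algebra of dimension
`n ^ 2`, `n = 2k`, with `m` odd and `p > n`, `E` a quadratic extension of `F` embedded in `A` by `ι`,
and `H` the centralizer of `E` in `A^×`. For every `t` in `F` with `0 < ‖t‖ < 1` and every `π`
generated by its vectors `v` with `π(u)v = ω(Nrd u)v` for all `u` in `1 + t M_m(O_D)`: if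
`Hom_H(π, χ ∘ Nrd)` is not zero then `χ = ω ∘ N_{E/F}` on `1 + t O_E`. (An entry `z` of `e(u) - 1`
is in `t O_D` iff `‖N_{D/F}(z)‖ ≤ ‖t‖ ^ [D:F]`.)
-/

namespace Pool.Agent.Results.MP_037d19_al.SharpRadius

open Pool.Agent.LPer Pool.Agent.VPer

theorem result (p : ℕ) [Fact p.Prime] (F E A D : Type) [NontriviallyNormedField F]
    [NormedAlgebra ℚ_[p] F] [FiniteDimensional ℚ_[p] F] [NormedField E] [NormedAlgebra F E]
    [NormedRing A] [NormedAlgebra F A] [Algebra.IsCentral F A] [IsSimpleRing A]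
    [FiniteDimensional F A] [DivisionRing D] [Algebra F D] [FiniteDimensional F D]
    (k m : ℕ) (hE : Module.finrank F E = 2) (hA : Module.finrank F A = (2 * k) ^ 2)
    (hm : Odd m) (e : A ≃ₐ[F] Matrix (Fin m) (Fin m) D) (ι : E →ₐ[F] A) (hp : 2 * k < p)
    (t : F) (ht : t ≠ 0) (ht1 : ‖t‖ < 1) :
    PeriodForces ι (fun u : Aˣ => ∀ i j, ‖Algebra.norm F ((e (u : A) - 1) i j)‖ ≤
      ‖t‖ ^ Module.finrank F D) ‖t‖ :=
  (three p F E A D k m hE hA hm e ι).2.1 hp t ht ht1

end Pool.Agent.Results.MP_037d19_al.SharpRadius
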