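import Pool.Agent.Work.MP_037d19_vp.Main3

/-!
# Vanishing of linear periods of `GL_m(D)`, `m` odd: a uniform linear bound

Let `F` be a finite extension of `ℚ_p` (`p = 2` is allowed), `A ≅ M_m(D)` a central simple
`F`-algebra of dimension `n ^ 2`, `n = 2k`, with `m` odd, `E` a quadratic extension of `F` embedded
in `A` by `ι`, and `H` the centralizer of `E` in `A^×`. There is a constant `c > 0`, independent of
`π`, `χ`, `ω` and `ε`, such that for every representation `π` of `A^×` generated by its vectors `v`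
with `π(u)v = ω(Nrd u)v` for all `u` with `‖u - 1‖ < ε` (`ε ≤ 1`): if `Hom_H(π, χ ∘ Nrd)` is not zero
then `χ = ω ∘ N_{E/F}` on the ball `‖x - 1‖ ≤ c ε`.
-/

namespace Pool.Agent.Results.MP_037d19_al.VanishingOddM

open Pool.Agent.LPer Pool.Agent.VPer

theorem result (p : ℕ) [Fact p.Prime] (F E A D : Type) [NontriviallyNormedField F]
    [NormedAlgebra ℚ_[p] F] [FiniteDimensional ℚ_[p] F] [NormedField E] [NormedAlgebra F E]
    [NormedRing A] [NormedAlgebra F A] [Algebra.IsCentral F A] [IsSimpleRing A]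
    [FiniteDimensional F A] [DivisionRing D] [Algebra F D] [FiniteDimensional F D]
    (k m : ℕ) (hE : Module.finrank F E = 2) (hA : Module.finrank F A = (2 * k) ^ 2)
    (hm : Odd m) (e : A ≃ₐ[F] Matrix (Fin m) (Fin m) D) (ι : E →ₐ[F] A) :
    ∃ c : ℝ, 0 < c ∧ ∀ ε : ℝ, 0 < ε → ε ≤ 1 →
      PeriodForces ι (fun u : Aˣ => ‖(u : A) - 1‖ < ε) (c * ε) :=
  (three p F E A D k m hE hA hm e ι).1

end Pool.Agent.Results.MP_037d19_al.VanishingOddM
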